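import Pool.Agent.PFS.Stmts

/-!
# PFS squad, row COM
-/

set_option autoImplicit false

open Filter Topology

namespace Pool.Agent.PFS.H73

theorem com : ComStmt := by
  intro G _ N hN k a ha
  have h1 : ∀ i j : Fin k, ∃ r : ℕ, 0 < r ∧ Commute (a i ^ r) (a j) := by
    intro i j
    obtain ⟨m1, m2, hlt, heq⟩ := hN.exists_lt_map_eq_of_forall_mem
      (f := fun m : ℕ => a i ^ m * a j * (a i ^ m)⁻¹ * (a j)⁻¹) (fun m => ha i j m)
    refine ⟨m2 - m1, Nat.sub_pos_of_lt hlt, ?_⟩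
    have h2 : a i ^ m1 * a j * (a i ^ m1)⁻¹ = a i ^ m2 * a j * (a i ^ m2)⁻¹ :=
      mul_right_cancel heq
    have h3 : a i ^ m2 = a i ^ m1 * a i ^ (m2 - m1) := by
      rw [← pow_add, Nat.add_sub_cancel' hlt.le]
    rw [h3, mul_inv_rev] at h2
    have h4 : a i ^ m1 * a j * (a i ^ m1)⁻¹ =
        a i ^ m1 * (a i ^ (m2 - m1) * a j * (a i ^ (m2 - m1))⁻¹) * (a i ^ m1)⁻¹ := by
      rw [h2]
      simp only [mul_assoc]
    have h5 : a j = a i ^ (m2 - m1) * a j * (a i ^ (m2 - m1))⁻¹ :=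
      mul_left_cancel (mul_right_cancel h4)
    unfold Commute SemiconjBy
    calc a i ^ (m2 - m1) * a j = a i ^ (m2 - m1) * a j * (a i ^ (m2 - m1))⁻¹ *
          a i ^ (m2 - m1) := by rw [inv_mul_cancel_right]
      _ = a j * a i ^ (m2 - m1) := by rw [← h5]
  choose r hr0 hr using h1
  refine ⟨∏ i, ∏ j, r i j, Finset.prod_pos fun i _ => Finset.prod_pos fun j _ => hr0 i j, ?_⟩
  intro i j
  have hd : r i j ∣ ∏ i, ∏ j, r i j :=
    (Finset.dvd_prod_of_mem (fun j => r i j) (Finset.mem_univ j)).trans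
      (Finset.dvd_prod_of_mem (fun i => ∏ j, r i j) (Finset.mem_univ i))
  obtain ⟨q, hq⟩ := hd
  have h6 : Commute (a i ^ (∏ i, ∏ j, r i j)) (a j) := by
    rw [hq, pow_mul]
    exact (hr i j).pow_left q
  exact h6.pow_right _

end Pool.Agent.PFS.H73
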