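import Pool.Agent.PFS.Stmts

/-!
# PFS squad, row HOM
-/

set_option autoImplicit false

open Filter Topology

namespace Pool.Agent.PFS.H73

theorem hom : HomStmt := by
  intro G _ k b hb
  have hc : Pairwise fun i j : Fin k => ∀ (x : Multiplicative ℤ) (y : Multiplicative ℤ),
      Commute (zpowersHom G (b i) x) (zpowersHom G (b j) y) := by
    intro i j _ x y
    rw [zpowersHom_apply, zpowersHom_apply]
    exact (hb i j).zpow_zpow _ _
  refine ⟨(MonoidHom.noncommPiCoprod (fun i => zpowersHom G (b i)) hc).comp
    (MulEquiv.piMultiplicative (fun _ : Fin k => ℤ)).toMonoidHom, fun i => ?_⟩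
  rw [MonoidHom.comp_apply]
  have e : (MulEquiv.piMultiplicative (fun _ : Fin k => ℤ)).toMonoidHom
      (Multiplicative.ofAdd (Pi.single i 1)) =
      Pi.mulSingle i (Multiplicative.ofAdd (1 : ℤ)) := by
    ext j
    by_cases hj : j = i
    · subst hj
      simp
    · simp [hj]
  rw [e, MonoidHom.noncommPiCoprod_mulSingle, zpowersHom_apply]
  simp

end Pool.Agent.PFS.H73
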