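import Pool.Agent.PFS.Stmts

/-!
# PFS squad, row MXK
-/

set_option autoImplicit false

open Filter Topology

namespace Pool.Agent.PFS.H73

theorem mxk (lin : LinStmt) : MxkStmt := by
  classical
  intro n C Γ h h3
  have hle : ∀ m : ℕ, (∃ w : Fin m → V n, IsPES C Γ w) → m ≤ n := by
    rintro m ⟨w, hw⟩
    have h1 := (lin n C h.toPCone (Fin m) w hw.1).fintype_card_le_finrank
    rwa [Fintype.card_fin, Module.finrank_fin_fun] at h1
  have h4 := hle 3 h3
  have hM1 := Nat.findGreatest_spec (P := fun m => ∃ w : Fin m → V n, IsPES C Γ w) h4 h3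
  have hM2 := Nat.le_findGreatest (P := fun m => ∃ w : Fin m → V n, IsPES C Γ w) h4 h3
  have hM3 : ∀ m, (∃ w : Fin m → V n, IsPES C Γ w) →
      m ≤ Nat.findGreatest (fun m => ∃ w : Fin m → V n, IsPES C Γ w) n :=
    fun m hm => Nat.le_findGreatest (hle m hm) hm
  generalize Nat.findGreatest (fun m => ∃ w : Fin m → V n, IsPES C Γ w) n = M at hM1 hM2 hM3
  obtain ⟨k, rfl⟩ : ∃ k, M = k + 1 := ⟨M - 1, by omega⟩
  exact ⟨k, by omega, hM1, fun m w hw => hM3 m ⟨w, hw⟩⟩

end Pool.Agent.PFS.H73
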