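import Pool.Agent.PFS.Stmts

/-!
# PFS squad, row NFN: the stabiliser of a ray of the cone is finite
-/

set_option autoImplicit false

open Matrix Filter Topology

namespace Pool.Agent.PFS.H73

variable {n : ℕ}

theorem compact_bdd (B : ℝ) :
    IsCompact {g : GL (Fin n) ℝ | (∀ i j, (g : Matrix (Fin n) (Fin n) ℝ) i j ∈ Set.Icc (-B) B) ∧
      ∀ i j, ((g⁻¹ : GL (Fin n) ℝ) : Matrix (Fin n) (Fin n) ℝ) i j ∈ Set.Icc (-B) B} := by
  have hK1 : IsCompact {A : Matrix (Fin n) (Fin n) ℝ | ∀ i, A i ∈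
      {v : Fin n → ℝ | ∀ j, v j ∈ Set.Icc (-B) B}} :=
    isCompact_pi_infinite fun _ => isCompact_pi_infinite fun _ => isCompact_Icc
  have hK2 := hK1.image (MulOpposite.continuous_op (M := Matrix (Fin n) (Fin n) ℝ))
  have hK3 := (Units.isClosedEmbedding_embedProduct
    (α := Matrix (Fin n) (Fin n) ℝ)).isCompact_preimage (hK1.prod hK2)
  refine hK3.of_isClosed_subset ?_ ?_
  · have e : {g : GL (Fin n) ℝ | (∀ i j, (g : Matrix (Fin n) (Fin n) ℝ) i j ∈ Set.Icc (-B) B) ∧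
        ∀ i j, ((g⁻¹ : GL (Fin n) ℝ) : Matrix (Fin n) (Fin n) ℝ) i j ∈ Set.Icc (-B) B} =
        (⋂ i, ⋂ j, {g : GL (Fin n) ℝ |
          (g : Matrix (Fin n) (Fin n) ℝ) i j ∈ Set.Icc (-B) B}) ∩
        (⋂ i, ⋂ j, {g : GL (Fin n) ℝ |
          ((g⁻¹ : GL (Fin n) ℝ) : Matrix (Fin n) (Fin n) ℝ) i j ∈ Set.Icc (-B) B}) := by
      ext g
      simp only [Set.mem_setOf_eq, Set.mem_inter_iff, Set.mem_iInter]
    rw [e]
    refine IsClosed.inter ?_ ?_
    · refine isClosed_iInter fun i => isClosed_iInter fun j => isClosed_Icc.preimage ?_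
      exact (Units.continuous_val).matrix_elem i j
    · refine isClosed_iInter fun i => isClosed_iInter fun j => isClosed_Icc.preimage ?_
      exact (Units.continuous_coe_inv).matrix_elem i j
  · rintro g ⟨h1, h2⟩
    refine ⟨fun i j => h1 i j, ⟨_, fun i j => h2 i j, rfl⟩⟩

theorem nfn : NfnStmt := by
  intro n C Γ h p hp
  have hpc : PCone C := h.toPCone
  -- the constant beta
  have hβ : ∃ β : ℝ, 0 < β ∧ ∀ i : Fin n, β • p - Pi.single i (1 : ℝ) ∈ closure C ∧
      β • p + Pi.single i (1 : ℝ) ∈ closure C := by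
    choose M hM1 hM2 using fun i : Fin n => hpc.absorb hp (Pi.single i (1 : ℝ))
    choose N hN1 hN2 using fun i : Fin n => hpc.absorb hp (-(Pi.single i (1 : ℝ)))
    refine ⟨1 + ∑ i, (M i + N i), ?_, fun i => ⟨?_, ?_⟩⟩
    · have : 0 ≤ ∑ i, (M i + N i) := Finset.sum_nonneg fun i _ => by
        have := hM1 i; have := hN1 i; linarith
      linarith
    · have hle : M i + N i ≤ ∑ i, (M i + N i) :=
        Finset.single_le_sum (f := fun i => M i + N i) (fun i _ => by
          have := hM1 i; have := hN1 i; linarith) (Finset.mem_univ i)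
      have h1 : (1 + ∑ i, (M i + N i) - M i) • p ∈ closure C :=
        hpc.cl_smul (subset_closure hp) (by have := hN1 i; linarith)
      have h2 := hpc.cl_add h1 (subset_closure (hM2 i))
      have e : (1 + ∑ i, (M i + N i) - M i) • p + (M i • p - Pi.single i (1 : ℝ)) =
          (1 + ∑ i, (M i + N i)) • p - Pi.single i (1 : ℝ) := by
        rw [sub_smul]; abel
      rwa [e] at h2
    · have hle : M i + N i ≤ ∑ i, (M i + N i) :=
        Finset.single_le_sum (f := fun i => M i + N i) (fun i _ => by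
          have := hM1 i; have := hN1 i; linarith) (Finset.mem_univ i)
      have h1 : (1 + ∑ i, (M i + N i) - N i) • p ∈ closure C :=
        hpc.cl_smul (subset_closure hp) (by have := hM1 i; linarith)
      have h2 := hpc.cl_add h1 (subset_closure (hN2 i))
      have e : (1 + ∑ i, (M i + N i) - N i) • p + (N i • p - -(Pi.single i (1 : ℝ))) =
          (1 + ∑ i, (M i + N i)) • p + Pi.single i (1 : ℝ) := by
        rw [sub_smul]; abel
      rwa [e] at h2
  obtain ⟨β, hβ0, hβ⟩ := hβ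
  obtain ⟨B, hB0, hB⟩ := hpc.normal
  obtain ⟨D, hD⟩ : ∃ D : ℝ, D = B * ‖(2 * β) • p‖ + ‖β • p‖ := ⟨_, rfl⟩
  have hD0 : 0 ≤ D := by rw [hD]; positivity
  -- the bound for the entries
  have key : ∀ γ ∈ Γ, ∀ c : ℝ, 0 < c → act γ p = c • p →
      ∀ i j, |(γ : Matrix (Fin n) (Fin n) ℝ) i j| ≤ c * D := by
    intro γ hγ c hc hcp i j
    have hcinv : 0 < c⁻¹ := inv_pos.mpr hc
    have hAp : ∀ t : ℝ, c⁻¹ • act γ (t • p) = t • p := by
      intro t
      rw [CC.act_smul, hcp, smul_smul, smul_smul]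
      congr 1
      field_simp
    have h1 := (h.sact_cl_iff hγ hcinv).mpr (hβ j).1
    have h2 := (h.sact_cl_iff hγ hcinv).mpr (hβ j).2
    rw [CC.act_sub, smul_sub, hAp] at h1
    rw [CC.act_add, smul_add, hAp] at h2
    have h3 : (2 * β) • p - (β • p + c⁻¹ • act γ (Pi.single j (1 : ℝ))) ∈ closure C := by
      have e : (2 * β) • p - (β • p + c⁻¹ • act γ (Pi.single j (1 : ℝ))) =
          β • p - c⁻¹ • act γ (Pi.single j (1 : ℝ)) := by
        rw [two_mul, add_smul]; abel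
      rw [e]; exact h1
    have h4 := hB _ _ h2 h3
    have h5 : ‖c⁻¹ • act γ (Pi.single j (1 : ℝ))‖ ≤ D := by
      have e : c⁻¹ • act γ (Pi.single j (1 : ℝ)) =
          (β • p + c⁻¹ • act γ (Pi.single j (1 : ℝ))) - β • p := by abel
      rw [e, hD]
      refine (norm_sub_le _ _).trans ?_
      linarith
    have h6 : act γ (Pi.single j (1 : ℝ)) i = (γ : Matrix (Fin n) (Fin n) ℝ) i j := by
      unfold act
      rw [Matrix.mulVec_single_one]
      rfl
    have h7 : |(c⁻¹ • act γ (Pi.single j (1 : ℝ))) i| ≤ D := by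
      rw [← Real.norm_eq_abs]
      exact (norm_le_pi_norm _ i).trans h5
    rw [Pi.smul_apply, h6, smul_eq_mul, abs_mul, abs_of_pos hcinv] at h7
    rwa [inv_mul_le_iff₀ hc] at h7
  -- powers
  have hpow : ∀ γ : GL (Fin n) ℝ, ∀ c : ℝ, act γ p = c • p → ∀ m : ℕ,
      act (γ ^ m) p = c ^ m • p := by
    intro γ c hc m
    induction m with
    | zero => rw [pow_zero, pow_zero, CC.act_one, one_smul]
    | succ m ih => rw [pow_succ', CC.act_mul, ih, CC.act_smul, hc, smul_smul, pow_succ]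
  have hinv : ∀ γ : GL (Fin n) ℝ, ∀ c : ℝ, 0 < c → act γ p = c • p →
      act γ⁻¹ p = c⁻¹ • p := by
    intro γ c hc hcp
    have h1 : act γ⁻¹ (act γ p) = p := CC.act_inv_act γ p
    rw [hcp, CC.act_smul] at h1
    calc act γ⁻¹ p = c⁻¹ • (c • act γ⁻¹ p) := by
          rw [smul_smul, inv_mul_cancel₀ hc.ne', one_smul]
      _ = c⁻¹ • p := by rw [h1]
  rcases Nat.eq_zero_or_pos n with hn | hn
  · subst hn
    exact Set.toFinite _
  -- the eigenvalue is at least one
  have hge : ∀ γ ∈ Γ, ∀ c : ℝ, 0 < c → act γ p = c • p → 1 ≤ c := by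
    intro γ hγ c hc hcp
    by_contra hlt
    push_neg at hlt
    have hlim : Tendsto (fun m : ℕ => ((Nat.factorial n : ℕ) : ℝ) * (c ^ m * D) ^ n) atTop
        (𝓝 (((Nat.factorial n : ℕ) : ℝ) * (0 * D) ^ n)) :=
      (((tendsto_pow_atTop_nhds_zero_of_lt_one hc.le hlt).mul_const D).pow n).const_mul _
    rw [zero_mul, zero_pow hn.ne', mul_zero] at hlim
    obtain ⟨m, hm⟩ := ((tendsto_order.1 hlim).2 1 one_pos).exists
    have hγm : γ ^ m ∈ Γ := Γ.pow_mem hγ m
    have h1 := key (γ ^ m) hγm (c ^ m) (pow_pos hc m) (hpow γ c hcp m)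
    have h2 := Matrix.det_le (A := ((γ ^ m : GL (Fin n) ℝ) : Matrix (Fin n) (Fin n) ℝ))
      (abv := (AbsoluteValue.abs : AbsoluteValue ℝ ℝ)) (x := c ^ m * D)
      (fun i j => by rw [AbsoluteValue.abs_apply]; exact h1 i j)
    rw [AbsoluteValue.abs_apply, h.det _ hγm, Fintype.card_fin, nsmul_eq_mul] at h2
    linarith
  have hone : ∀ γ ∈ Γ, ∀ c : ℝ, 0 < c → act γ p = c • p → c = 1 := by
    intro γ hγ c hc hcp
    have h1 := hge γ hγ c hc hcp
    have h2 := hge γ⁻¹ (Γ.inv_mem hγ) c⁻¹ (inv_pos.mpr hc) (hinv γ c hc hcp)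
    have h3 : c ≤ 1 := by
      rw [one_le_inv₀ hc] at h2
      exact h2
    linarith
  -- finiteness
  haveI := h.disc
  have hcl : IsClosed (Γ : Set (GL (Fin n) ℝ)) := Subgroup.isClosed_of_discrete
  have hcomp := (compact_bdd (n := n) D).inter_right hcl
  have hfin : ({g : GL (Fin n) ℝ |
      (∀ i j, (g : Matrix (Fin n) (Fin n) ℝ) i j ∈ Set.Icc (-D) D) ∧
      ∀ i j, ((g⁻¹ : GL (Fin n) ℝ) : Matrix (Fin n) (Fin n) ℝ) i j ∈ Set.Icc (-D) D} ∩
      (Γ : Set (GL (Fin n) ℝ))).Finite := by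
    refine hcomp.finite ?_
    have hd : IsDiscrete (Γ : Set (GL (Fin n) ℝ)) := ⟨h.disc⟩
    exact hd.mono Set.inter_subset_right
  refine hfin.subset ?_
  rintro γ ⟨hγ, c, hc, hcp⟩
  have hc1 := hone γ hγ c hc hcp
  subst hc1
  have hcp' := hinv γ 1 one_pos hcp
  rw [inv_one] at hcp'
  refine ⟨⟨fun i j => ?_, fun i j => ?_⟩, hγ⟩
  · have := key γ hγ 1 one_pos hcp i j
    rw [one_mul] at this
    exact ⟨(abs_le.mp this).1, (abs_le.mp this).2⟩
  · have := key γ⁻¹ (Γ.inv_mem hγ) 1 one_pos hcp' i j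
    rw [one_mul] at this
    exact ⟨(abs_le.mp this).1, (abs_le.mp this).2⟩

end Pool.Agent.PFS.H73
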